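import Pool.Agent.H23.KerDefs

set_option autoImplicit false

/-! T2 of S2208: convergence of the infinite product -/

namespace Pool.Agent.H23.Ker

open Finset

lemma b_abs (s t : Fin 4) : |b s t| = 1 := by
  unfold b; split_ifs <;> simp

lemma b_or (s t : Fin 4) : b s t = 1 ∨ b s t = -1 := by
  unfold b; split_ifs <;> simp

lemma b_symm (s t : Fin 4) : b s t = b t s := by
  unfold b; simp only [eq_comm]

lemma pm_prod {ι : Type} (s : Finset ι) (f : ι → ℝ) (h : ∀ i ∈ s, f i = 1 ∨ f i = -1) :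
    ∏ i ∈ s, f i = 1 ∨ ∏ i ∈ s, f i = -1 := by
  classical
  induction s using Finset.induction_on with
  | empty => left; simp
  | insert a s ha ih =>
    rw [Finset.prod_insert ha]
    rcases h a (Finset.mem_insert_self a s) with h1 | h1 <;>
      rcases ih (fun i hi => h i (Finset.mem_insert_of_mem hi)) with h2 | h2 <;>
      rw [h1, h2] <;> norm_num

lemma Bm_or (d : ℕ) (x y : Fin d → Fin 4) : Bm d x y = 1 ∨ Bm d x y = -1 :=
  pm_prod _ _ (fun _ _ => b_or _ _)

lemma Bm_symm (d : ℕ) (x y : Fin d → Fin 4) : Bm d x y = Bm d y x := by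
  unfold Bm
  exact Finset.prod_congr rfl (fun j _ => b_symm _ _)

variable {m : ℕ}

/-- ordered edges -/
noncomputable def PE (F : SimpleGraph (Fin m)) : Finset (Fin m × Fin m) := by
  classical
  exact Finset.univ.filter (fun p => p.1 < p.2 ∧ F.Adj p.1 p.2)

lemma mem_PE {F : SimpleGraph (Fin m)} {p : Fin m × Fin m} : p ∈ PE F ↔ p.1 < p.2 ∧ F.Adj p.1 p.2 := by
  classical
  simp [PE]

lemma ncard_PE (F : SimpleGraph (Fin m)) : F.edgeSet.ncard = (PE F).card := by
  classical
  have h : F.edgeSet = (fun p : Fin m × Fin m => s(p.1, p.2)) '' ((PE F : Finset (Fin m × Fin m)) : Set (Fin m × Fin m)) := by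
    ext e
    induction e using Sym2.ind with
    | _ x y =>
      rw [SimpleGraph.mem_edgeSet]
      constructor
      · intro h
        rcases lt_trichotomy x y with h1 | h1 | h1
        · exact ⟨(x, y), Finset.mem_coe.mpr (mem_PE.mpr ⟨h1, h⟩), rfl⟩
        · exact absurd h1 h.ne
        · exact ⟨(y, x), Finset.mem_coe.mpr (mem_PE.mpr ⟨h1, h.symm⟩), Sym2.eq_swap⟩
      · rintro ⟨p, hp, he⟩
        have hp' := (mem_PE.mp (Finset.mem_coe.mp hp)).2
        have he' : s(p.1, p.2) = s(x, y) := he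
        have : s(p.1, p.2) ∈ F.edgeSet := by rw [SimpleGraph.mem_edgeSet]; exact hp'
        rw [he', SimpleGraph.mem_edgeSet] at this
        exact this
  rw [h, Set.ncard_image_of_injOn, Set.ncard_coe_finset]
  intro p hp q hq h
  have hp' := (mem_PE.mp (Finset.mem_coe.mp hp)).1
  have hq' := (mem_PE.mp (Finset.mem_coe.mp hq)).1
  have h' : s(p.1, p.2) = s(q.1, q.2) := h
  rw [Sym2.eq_iff] at h'
  rcases h' with ⟨h1, h2⟩ | ⟨h1, h2⟩
  · exact Prod.ext h1 h2
  · rw [h1, h2] at hp'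
    exact absurd hp' (not_lt.mpr hq'.le)

/-- the product over a set of pairs -/
noncomputable def gS (S : Finset (Fin m × Fin m)) (ψ : Fin m → Fin 4) : ℝ := ∏ p ∈ S, b (ψ p.1) (ψ p.2)

/-- the average -/
noncomputable def tS (S : Finset (Fin m × Fin m)) : ℝ := (∑ ψ : Fin m → Fin 4, gS S ψ) / (4 : ℝ) ^ m

lemma hom_eq (F : SimpleGraph (Fin m)) (d : ℕ) :
    (2 : ℝ) ^ F.edgeSet.ncard * (hom F (Fin d → Fin 4) (Rd d) : ℝ) =
      ∑ φ : Fin m → Fin d → Fin 4, ∏ p ∈ PE F, (1 + Bm d (φ p.1) (φ p.2)) := by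
  classical
  have h1 : ∀ φ : Fin m → Fin d → Fin 4, ∏ p ∈ PE F, (1 + Bm d (φ p.1) (φ p.2)) =
      if (∀ u v, F.Adj u v → Rd d (φ u) (φ v)) then (2 : ℝ) ^ (PE F).card else 0 := by
    intro φ
    split_ifs with h
    · rw [← Finset.prod_const]
      refine Finset.prod_congr rfl (fun p hp => ?_)
      have := h p.1 p.2 (mem_PE.mp hp).2
      unfold Rd at this
      rw [this]; norm_num
    · push Not at h
      obtain ⟨u, v, huv, hn⟩ := h
      have hn' : Bm d (φ u) (φ v) = -1 := by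
        rcases Bm_or d (φ u) (φ v) with h | h
        · exact absurd h hn
        · exact h
      rcases lt_trichotomy u v with h1 | h1 | h1
      · exact Finset.prod_eq_zero (mem_PE.mpr (⟨h1, huv⟩ : (u, v).1 < (u, v).2 ∧ F.Adj (u, v).1 (u, v).2))
          (by simp only; rw [hn']; norm_num)
      · exact absurd h1 huv.ne
      · exact Finset.prod_eq_zero (mem_PE.mpr (⟨h1, huv.symm⟩ : (v, u).1 < (v, u).2 ∧ F.Adj (v, u).1 (v, u).2))
          (by simp only; rw [Bm_symm, hn']; norm_num)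
  rw [Finset.sum_congr rfl (fun φ _ => h1 φ), ← Finset.sum_filter, Finset.sum_const, nsmul_eq_mul, ncard_PE]
  rw [mul_comm]
  congr 2
  unfold hom
  rw [Nat.card_eq_fintype_card, Fintype.card_subtype]

lemma factor_eq (F : SimpleGraph (Fin m)) (d : ℕ) :
    (2 : ℝ) ^ F.edgeSet.ncard * (hom F (Fin d → Fin 4) (Rd d) : ℝ) / (4 : ℝ) ^ (d * m) =
      ∑ S ∈ (PE F).powerset, tS S ^ d := by
  classical
  rw [hom_eq]
  have h1 : ∀ φ : Fin m → Fin d → Fin 4, ∏ p ∈ PE F, (1 + Bm d (φ p.1) (φ p.2)) =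
      ∑ S ∈ (PE F).powerset, ∏ j : Fin d, gS S (fun u => φ u j) := by
    intro φ
    rw [Finset.prod_one_add]
    refine Finset.sum_congr rfl (fun S _ => ?_)
    unfold Bm gS
    rw [Finset.prod_comm]
  rw [Finset.sum_congr rfl (fun φ _ => h1 φ), Finset.sum_comm, Finset.sum_div]
  refine Finset.sum_congr rfl (fun S _ => ?_)
  unfold tS
  rw [div_pow, ← pow_mul, mul_comm m d, Fintype.sum_pow]
  congr 1
  refine Fintype.sum_equiv (Equiv.piComm (fun _ _ => Fin 4)) _ _ (fun φ => ?_)
  rfl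

lemma tS_empty : tS (∅ : Finset (Fin m × Fin m)) = 1 := by
  unfold tS gS
  simp

lemma gS_or (S : Finset (Fin m × Fin m)) (ψ : Fin m → Fin 4) : gS S ψ = 1 ∨ gS S ψ = -1 :=
  pm_prod _ _ (fun _ _ => b_or _ _)

lemma abs_sum_lt {X : Type} [Fintype X] (g : X → ℝ) (hg : ∀ x, g x = 1 ∨ g x = -1) (x1 x2 : X)
    (h : g x1 = - g x2) : |∑ x, g x| < Fintype.card X := by
  classical
  have hne : x1 ≠ x2 := by
    rintro rfl
    rcases hg x1 with h1 | h1 <;> rw [h1] at h <;> norm_num at h
  have h1 : ∑ x, g x = ∑ x ∈ (Finset.univ.erase x1).erase x2, g x := by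
    rw [← Finset.add_sum_erase Finset.univ g (Finset.mem_univ x1),
      ← Finset.add_sum_erase (Finset.univ.erase x1) g
        (Finset.mem_erase.mpr ⟨hne.symm, Finset.mem_univ x2⟩), h]
    ring
  rw [h1]
  calc |∑ x ∈ (Finset.univ.erase x1).erase x2, g x| ≤ ∑ x ∈ (Finset.univ.erase x1).erase x2, |g x| :=
        Finset.abs_sum_le_sum_abs _ _
    _ = ((Finset.univ.erase x1).erase x2).card := by
        rw [Finset.sum_congr rfl (fun x _ => (by rcases hg x with h | h <;> rw [h] <;> simp : |g x| = 1))]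
        simp
    _ < Fintype.card X := by
        have : ((Finset.univ.erase x1).erase x2).card < (Finset.univ : Finset X).card :=
          lt_of_le_of_lt (Finset.card_le_card (Finset.erase_subset _ _))
            (Finset.card_erase_lt_of_mem (Finset.mem_univ x1))
        rw [Finset.card_univ] at this
        exact_mod_cast this

lemma tS_lt {F : SimpleGraph (Fin m)} {S : Finset (Fin m × Fin m)} (hS : S ⊆ PE F) (hne : S.Nonempty) :
    |tS S| < 1 := by
  classical
  obtain ⟨⟨u, v⟩, huv⟩ := hne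
  have hlt : u < v := (mem_PE.mp (hS huv)).1
  have hne : u ≠ v := hlt.ne
  let ψ : Fin 4 → Fin m → Fin 4 := fun c w => if w = v then 0 else if w = u then c else 1
  have hψv : ∀ c, ψ c v = 0 := fun c => by simp [ψ]
  have hψu : ∀ c, ψ c u = c := fun c => by simp [ψ, hne]
  have hψo : ∀ c w, w ≠ u → w ≠ v → ψ c w = 1 := fun c w h1 h2 => by simp [ψ, h1, h2]
  have key : gS S (ψ 0) = - gS S (ψ 2) := by
    unfold gS
    rw [← Finset.mul_prod_erase S _ huv, ← Finset.mul_prod_erase S (fun p => b (ψ 2 p.1) (ψ 2 p.2)) huv]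
    have h1 : ∏ p ∈ S.erase (u, v), b (ψ 0 p.1) (ψ 0 p.2) = ∏ p ∈ S.erase (u, v), b (ψ 2 p.1) (ψ 2 p.2) := by
      refine Finset.prod_congr rfl (fun p hp => ?_)
      rw [Finset.mem_erase] at hp
      have hp' := (mem_PE.mp (hS hp.2)).1
      obtain ⟨x, y⟩ := p
      simp only at hp' ⊢
      by_cases hx : x = u
      · subst hx
        have hy : y ≠ v := fun h => hp.1 (by rw [h])
        rw [hψu, hψu, hψo _ y hp'.ne' hy, hψo _ y hp'.ne' hy]
        unfold b; simp
      · by_cases hy : y = u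
        · subst hy
          have hxv : x ≠ v := fun h => by rw [h] at hp'; exact absurd hp' (not_lt.mpr hlt.le)
          rw [hψu, hψu, hψo _ x hx hxv, hψo _ x hx hxv]
          unfold b; simp
        · have : ∀ w, w ≠ u → ψ 0 w = ψ 2 w := by
            intro w hw
            by_cases hwv : w = v
            · rw [hwv, hψv, hψv]
            · rw [hψo _ w hw hwv, hψo _ w hw hwv]
          rw [this x hx, this y hy]
    rw [h1]
    simp only [hψu, hψv]
    unfold b
    simp
  have h2 := abs_sum_lt (gS S) (gS_or S) _ _ key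
  have h3 : (Fintype.card (Fin m → Fin 4) : ℝ) = 4 ^ m := by
    rw [Fintype.card_fun, Fintype.card_fin, Fintype.card_fin]; push_cast; rfl
  unfold tS
  rw [abs_div, abs_of_pos (by positivity : (0 : ℝ) < 4 ^ m), div_lt_one (by positivity), ← h3]
  exact h2

theorem conv (m : ℕ) (F : SimpleGraph (Fin m)) : ∃ c : ℝ, 0 ≤ c ∧ Filter.Tendsto
    (fun k : ℕ => ∏ i ∈ Finset.range k, ((2:ℝ)^F.edgeSet.ncard *
      (hom F (Fin (i+1) → Fin 4) (Rd (i+1)) : ℝ) / (4:ℝ)^((i+1)*m))) Filter.atTop (nhds c) := by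
  classical
  set r : ℕ → ℝ := fun i => ∑ S ∈ (PE F).powerset.erase ∅, tS S ^ (i + 1) with hr
  have hfac : ∀ i : ℕ, ((2:ℝ)^F.edgeSet.ncard *
      (hom F (Fin (i+1) → Fin 4) (Rd (i+1)) : ℝ) / (4:ℝ)^((i+1)*m)) = 1 + r i := by
    intro i
    rw [factor_eq, hr, ← Finset.add_sum_erase _ _ (Finset.empty_mem_powerset (PE F)), tS_empty, one_pow]
  have hsum : Summable (fun i => ‖r i‖) := by
    have h1 : Summable (fun i : ℕ => ∑ S ∈ (PE F).powerset.erase ∅, |tS S| ^ (i + 1)) := by
      apply summable_sum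
      intro S hS
      rw [Finset.mem_erase, Finset.mem_powerset] at hS
      have h := tS_lt hS.2 (Finset.nonempty_iff_ne_empty.mpr hS.1)
      exact (summable_nat_add_iff 1).mpr (summable_geometric_of_lt_one (abs_nonneg _) h)
    refine Summable.of_nonneg_of_le (fun i => norm_nonneg _) (fun i => ?_) h1
    rw [Real.norm_eq_abs]
    refine (Finset.abs_sum_le_sum_abs _ _).trans (le_of_eq ?_)
    exact Finset.sum_congr rfl (fun S _ => abs_pow _ _)
  have hm : Multipliable (fun i => 1 + r i) := multipliable_one_add_of_summable hsum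
  have ht := hm.tendsto_prod_tprod_nat
  refine ⟨∏' i, (1 + r i), ?_, ?_⟩
  · refine ge_of_tendsto' ht (fun k => ?_)
    apply Finset.prod_nonneg
    intro i _
    rw [← hfac i]
    positivity
  · simp only [hfac]
    exact ht

end Pool.Agent.H23.Ker
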