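import Pool.Agent.H23.KerDefs

set_option autoImplicit false

/-! T1 of S2208: blow-ups and the diagonal choice -/

namespace Pool.Agent.H23.Ker

open Finset Filter

section blow
variable {V : Type} [Fintype V] [Nonempty V]

/-- projection of `ℕ` onto `V` -/
noncomputable def pj (V : Type) [Fintype V] [Nonempty V] (i : ℕ) : V :=
  (Fintype.equivFin V).symm ⟨i % Fintype.card V, Nat.mod_lt _ Fintype.card_pos⟩

/-- blow-up graph -/
noncomputable def bl (R : V → V → Prop) (hR : ∀ x y, R x y → R y x) (n : ℕ) : SimpleGraph (Fin n) where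
  Adj i j := i ≠ j ∧ R (pj V i) (pj V j)
  symm := ⟨fun _ _ h => ⟨h.1.symm, hR _ _ h.2⟩⟩
  loopless := ⟨fun _ h => h.1 rfl⟩

/-- fibre -/
noncomputable def fib (n : ℕ) (x : V) : Finset (Fin n) := by
  classical
  exact Finset.univ.filter (fun i : Fin n => pj V i = x)

lemma mem_fib {n : ℕ} {x : V} {i : Fin n} : i ∈ fib n x ↔ pj V i = x := by
  classical
  simp [fib]

lemma fib_card (n : ℕ) (x : V) : n / Fintype.card V ≤ (fib n x).card ∧
    (fib n x).card ≤ n / Fintype.card V + 1 := by
  classical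
  have h1 : (fib n x).card = Nat.count (· ≡ (Fintype.equivFin V x).val [MOD Fintype.card V]) n := by
    rw [Nat.count_eq_card_filter_range]
    refine Finset.card_bij (fun i _ => i.val) ?_ ?_ ?_
    · intro i hi
      rw [mem_fib] at hi
      rw [Finset.mem_filter, Finset.mem_range]
      refine ⟨i.isLt, ?_⟩
      unfold pj at hi
      have := congrArg (fun y => (Fintype.equivFin V y).val) hi
      simp only [Equiv.apply_symm_apply] at this
      unfold Nat.ModEq
      rw [this, Nat.mod_eq_of_lt (Fintype.equivFin V x).isLt]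
    · intro i _ j _ h
      exact Fin.ext h
    · intro i hi
      rw [Finset.mem_filter, Finset.mem_range] at hi
      refine ⟨⟨i, hi.1⟩, ?_, rfl⟩
      rw [mem_fib]
      unfold pj
      rw [Equiv.symm_apply_eq]
      apply Fin.ext
      have h2 := hi.2
      unfold Nat.ModEq at h2
      rw [Nat.mod_eq_of_lt (Fintype.equivFin V x).isLt] at h2
      exact h2
  rw [h1, Nat.count_modEq_card _ Fintype.card_pos]
  split_ifs <;> omega

lemma fib_tendsto (x : V) : Tendsto (fun n : ℕ => ((fib n x).card : ℝ) / n) atTop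
    (nhds (1 / (Fintype.card V : ℝ))) := by
  have hM : (0 : ℝ) < Fintype.card V := by exact_mod_cast Fintype.card_pos
  rw [tendsto_iff_norm_sub_tendsto_zero]
  have h1 : Tendsto (fun n : ℕ => (1 : ℝ) / n) atTop (nhds 0) := tendsto_const_div_atTop_nhds_zero_nat 1
  refine squeeze_zero' (Eventually.of_forall (fun n => norm_nonneg _)) ?_ h1
  filter_upwards [eventually_gt_atTop 0] with n hn
  have hn' : (0 : ℝ) < n := by exact_mod_cast hn
  obtain ⟨h2, h3⟩ := fib_card n x
  have h4 : ((n / Fintype.card V : ℕ) : ℝ) ≤ (n : ℝ) / Fintype.card V := Nat.cast_div_le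
  have h5 : (n : ℝ) / Fintype.card V < ((n / Fintype.card V : ℕ) : ℝ) + 1 := by
    rw [div_lt_iff₀ hM]
    have := Nat.lt_div_mul_add (a := n) (Fintype.card_pos (α := V))
    have h6 : n < (n / Fintype.card V + 1) * Fintype.card V := by
      rw [add_mul, one_mul]; exact this
    exact_mod_cast h6
  have h2' : ((n / Fintype.card V : ℕ) : ℝ) ≤ (fib n x).card := by exact_mod_cast h2
  have h3' : ((fib n x).card : ℝ) ≤ ((n / Fintype.card V : ℕ) : ℝ) + 1 := by exact_mod_cast h3
  have h7 : ((fib n x).card : ℝ) / n - 1 / Fintype.card V =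
      ((fib n x).card - (n : ℝ) / Fintype.card V) / n := by
    field_simp
  rw [h7, Real.norm_eq_abs, abs_div, abs_of_pos hn']
  apply div_le_div_of_nonneg_right _ hn'.le
  rw [abs_le]
  constructor <;> linarith

variable (R : V → V → Prop) (hR : ∀ x y, R x y → R y x) {m : ℕ} (F : SimpleGraph (Fin m))

/-- all maps -/
noncomputable def allM (n : ℕ) : Finset (Fin m → Fin n) := by
  classical
  exact Finset.univ.filter (fun φ => ∀ u v, F.Adj u v → R (pj V (φ u)) (pj V (φ v)))

/-- homs as a finset -/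
noncomputable def homF : Finset (Fin m → V) := by
  classical
  exact Finset.univ.filter (fun ψ => ∀ u v, F.Adj u v → R (ψ u) (ψ v))

omit [Nonempty V] in
lemma hom_card : hom F V R = (homF R F).card := by
  classical
  unfold hom homF
  rw [Nat.card_eq_fintype_card, Fintype.card_subtype]

lemma allM_card (n : ℕ) : (allM R F n).card = ∑ ψ ∈ homF R F, ∏ u, (fib n (ψ u)).card := by
  classical
  rw [Finset.card_eq_sum_card_fiberwise (f := fun φ u => pj V (φ u).val) (t := homF R F)]
  · refine Finset.sum_congr rfl (fun ψ hψ => ?_)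
    rw [← Fintype.card_piFinset]
    congr 1
    ext φ
    rw [Finset.mem_filter, Fintype.mem_piFinset]
    unfold allM homF at *
    rw [Finset.mem_filter] at hψ ⊢
    constructor
    · rintro ⟨-, h⟩ u
      rw [mem_fib]; exact congrFun h u
    · intro h
      have h' : ∀ u, pj V (φ u).val = ψ u := fun u => mem_fib.mp (h u)
      refine ⟨⟨Finset.mem_univ _, ?_⟩, funext h'⟩
      intro u v huv
      rw [h' u, h' v]; exact hψ.2 u v huv
  · intro φ hφ
    unfold allM homF at *
    rw [Finset.mem_coe, Finset.mem_filter] at hφ ⊢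
    exact ⟨Finset.mem_univ _, hφ.2⟩

lemma allM_tendsto : Tendsto (fun n : ℕ => ((allM R F n).card : ℝ) / (n : ℝ) ^ m) atTop
    (nhds ((hom F V R : ℝ) / (Fintype.card V : ℝ) ^ m)) := by
  have h1 : ∀ n : ℕ, ((allM R F n).card : ℝ) / (n : ℝ) ^ m =
      ∑ ψ ∈ homF R F, ∏ u, (((fib n (ψ u)).card : ℝ) / n) := by
    intro n
    rw [allM_card]
    push_cast
    rw [Finset.sum_div]
    refine Finset.sum_congr rfl (fun ψ _ => ?_)
    rw [Finset.prod_div_distrib]
    simp
  have h2 : (hom F V R : ℝ) / (Fintype.card V : ℝ) ^ m =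
      ∑ ψ ∈ homF R F, ∏ _u : Fin m, (1 / (Fintype.card V : ℝ)) := by
    rw [Finset.sum_const, Finset.prod_const, hom_card, nsmul_eq_mul]
    simp [div_eq_mul_inv]
  simp only [h1]
  rw [h2]
  refine tendsto_finsetSum _ (fun ψ _ => tendsto_finsetProd _ (fun u _ => fib_tendsto (ψ u)))

/-- number of embeddings -/
noncomputable def emb (n : ℕ) : ℕ := Nat.card {f : F →g bl R hR n // Function.Injective f}

/-- embeddings as a finset -/
noncomputable def embF (n : ℕ) : Finset (Fin m → Fin n) := by
  classical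
  exact (allM R F n).filter (fun φ => Function.Injective φ)

lemma mem_embF {n : ℕ} {φ : Fin m → Fin n} : φ ∈ embF R F n ↔
    (∀ u v, F.Adj u v → R (pj V (φ u)) (pj V (φ v))) ∧ Function.Injective φ := by
  classical
  simp [embF, allM]

lemma emb_eq (n : ℕ) : emb R hR F n = (embF R F n).card := by
  classical
  unfold emb
  rw [← Fintype.card_coe, ← Nat.card_eq_fintype_card]
  refine Nat.card_congr
    { toFun := fun f => ⟨fun u => f.1 u, by
        rw [mem_embF]
        exact ⟨fun u v huv => (f.1.map_rel huv).2, f.2⟩⟩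
      invFun := fun φ => ⟨⟨φ.1, fun {u v} huv => by
        have h := (mem_embF R F).mp φ.2
        exact ⟨fun h' => huv.ne (h.2 h'), h.1 u v huv⟩⟩, ((mem_embF R F).mp φ.2).2⟩
      left_inv := fun f => by
        apply Subtype.ext
        apply RelHom.ext
        intro u
        rfl
      right_inv := fun φ => by
        apply Subtype.ext
        rfl }

lemma desc_tendsto (m : ℕ) : Tendsto (fun n : ℕ => ((n.descFactorial m : ℕ) : ℝ) / (n : ℝ) ^ m) atTop
    (nhds 1) := by
  have h1 : Tendsto (fun n : ℕ => (((n + 1 - m : ℕ) : ℝ) / n) ^ m) atTop (nhds 1) := by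
    have h2 : Tendsto (fun n : ℕ => ((n + 1 - m : ℕ) : ℝ) / n) atTop (nhds 1) := by
      have h3 : Tendsto (fun n : ℕ => 1 + (1 - (m : ℝ)) / n) atTop (nhds (1 + 0)) :=
        tendsto_const_nhds.add (tendsto_const_div_atTop_nhds_zero_nat _)
      rw [add_zero] at h3
      refine h3.congr' ?_
      filter_upwards [eventually_ge_atTop (m + 1)] with n hn
      have hn0 : (n : ℝ) ≠ 0 := by
        have : 0 < n := by omega
        exact_mod_cast this.ne'
      rw [Nat.cast_sub (by omega)]
      push_cast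
      field_simp
      ring
    have := h2.pow m
    rw [one_pow] at this
    exact this
  refine tendsto_of_tendsto_of_tendsto_of_le_of_le' h1 tendsto_const_nhds ?_ ?_
  · refine Eventually.of_forall (fun n => ?_)
    rw [div_pow]
    apply div_le_div_of_nonneg_right _ (by positivity)
    exact_mod_cast Nat.pow_sub_le_descFactorial n m
  · refine Eventually.of_forall (fun n => ?_)
    apply div_le_one_of_le₀ _ (by positivity)
    exact_mod_cast Nat.descFactorial_le_pow n m

lemma emb_tendsto : Tendsto (fun n : ℕ => (emb R hR F n : ℝ) / (n : ℝ) ^ m) atTop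
    (nhds ((hom F V R : ℝ) / (Fintype.card V : ℝ) ^ m)) := by
  classical
  have h1 := allM_tendsto R F
  have h2 : Tendsto (fun n : ℕ => ((allM R F n).card : ℝ) / (n : ℝ) ^ m -
      (1 - ((n.descFactorial m : ℕ) : ℝ) / (n : ℝ) ^ m)) atTop
      (nhds ((hom F V R : ℝ) / (Fintype.card V : ℝ) ^ m - (1 - 1))) :=
    h1.sub (tendsto_const_nhds.sub (desc_tendsto m))
  rw [sub_self, sub_zero] at h2
  refine tendsto_of_tendsto_of_tendsto_of_le_of_le' h2 h1 ?_ ?_
  · filter_upwards [eventually_gt_atTop 0] with n hn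
    have hn' : (0 : ℝ) < n := by exact_mod_cast hn
    have h3 : (allM R F n).card ≤ (embF R F n).card +
        ((Finset.univ : Finset (Fin m → Fin n)).filter (fun φ => ¬ Function.Injective φ)).card := by
      rw [embF, ← Finset.card_filter_add_card_filter_not (s := allM R F n) (fun φ => Function.Injective φ)]
      apply Nat.add_le_add_left
      apply Finset.card_le_card
      intro φ hφ
      rw [Finset.mem_filter] at hφ ⊢
      exact ⟨Finset.mem_univ _, hφ.2⟩
    have h4 : ((Finset.univ : Finset (Fin m → Fin n)).filter (fun φ => Function.Injective φ)).card +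
        ((Finset.univ : Finset (Fin m → Fin n)).filter (fun φ => ¬ Function.Injective φ)).card = n ^ m := by
      rw [Finset.card_filter_add_card_filter_not, Finset.card_univ, Fintype.card_fun, Fintype.card_fin,
        Fintype.card_fin]
    have h5 : ((Finset.univ : Finset (Fin m → Fin n)).filter (fun φ => Function.Injective φ)).card =
        n.descFactorial m := by
      rw [← Fintype.card_subtype, Fintype.card_congr (Equiv.subtypeInjectiveEquivEmbedding (Fin m) (Fin n)),
        Fintype.card_embedding_eq, Fintype.card_fin, Fintype.card_fin]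
    have h6 : ((allM R F n).card : ℝ) + n.descFactorial m ≤ (embF R F n).card + (n : ℝ) ^ m := by
      have : (allM R F n).card + n.descFactorial m ≤ (embF R F n).card + n ^ m := by omega
      exact_mod_cast this
    rw [emb_eq]
    have h7 : (0 : ℝ) < (n : ℝ) ^ m := by positivity
    rw [sub_le_iff_le_add, ← sub_le_iff_le_add']
    have h8 : (1 : ℝ) = (n : ℝ) ^ m / (n : ℝ) ^ m := by rw [div_self h7.ne']
    rw [h8, ← sub_div, ← sub_div]
    apply div_le_div_of_nonneg_right _ h7.le
    linarith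
  · refine Eventually.of_forall (fun n => ?_)
    apply div_le_div_of_nonneg_right _ (by positivity)
    rw [emb_eq]
    have : (embF R F n).card ≤ (allM R F n).card := by
      rw [embF]; exact Finset.card_filter_le _ _
    exact_mod_cast this

end blow

theorem seq_exists (V : ℕ → Type) [∀ k, Fintype (V k)] [∀ k, Nonempty (V k)]
    (R : ∀ k, V k → V k → Prop) (hR : ∀ k x y, R k x y → R k y x)
    (c : ∀ m : ℕ, SimpleGraph (Fin m) → ℝ)
    (hc : ∀ (m : ℕ) (F : SimpleGraph (Fin m)), Filter.Tendsto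
      (fun k : ℕ => (2:ℝ)^(k * F.edgeSet.ncard) * (hom F (V k) (R k) : ℝ) /
        (Fintype.card (V k) : ℝ)^m) Filter.atTop (nhds (c m F))) :
    ∃ (p : ℕ → ℝ) (G : ∀ n : ℕ, SimpleGraph (Fin n)), (∀ n, 0 < p n ∧ p n ≤ 1) ∧
      (∀ ε : ℝ, 0 < ε → ∀ᶠ n : ℕ in Filter.atTop, (n : ℝ) ^ (-ε) ≤ p n) ∧
      ∀ (m : ℕ) (F : SimpleGraph (Fin m)) [DecidableRel F.Adj],
        Filter.Tendsto (fun n : ℕ => (Nat.card {f : F →g G n // Function.Injective f} : ℝ) /
          (p n ^ F.edgeFinset.card * (n : ℝ) ^ m)) Filter.atTop (nhds (c m F)) := by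
  classical
  -- the thresholds
  have hN : ∀ k : ℕ, ∃ N : ℕ, ∀ n, N ≤ n → 2 ^ (k * k) ≤ n ∧ ∀ m ∈ Finset.range (k + 1),
      ∀ F : SimpleGraph (Fin m),
        |(2:ℝ)^(k * F.edgeSet.ncard) * ((emb (R k) (hR k) F n : ℝ) / (n : ℝ) ^ m) -
          (2:ℝ)^(k * F.edgeSet.ncard) * ((hom F (V k) (R k) : ℝ) / (Fintype.card (V k) : ℝ)^m)| ≤
            1 / ((k : ℝ) + 1) := by
    intro k
    have h1 : ∀ᶠ n : ℕ in atTop, 2 ^ (k * k) ≤ n := eventually_ge_atTop _
    have h2 : ∀ᶠ n : ℕ in atTop, ∀ m ∈ Finset.range (k + 1), ∀ F : SimpleGraph (Fin m),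
        |(2:ℝ)^(k * F.edgeSet.ncard) * ((emb (R k) (hR k) F n : ℝ) / (n : ℝ) ^ m) -
          (2:ℝ)^(k * F.edgeSet.ncard) * ((hom F (V k) (R k) : ℝ) / (Fintype.card (V k) : ℝ)^m)| ≤
            1 / ((k : ℝ) + 1) := by
      rw [Filter.eventually_all_finset]
      intro m _
      rw [Filter.eventually_all]
      intro F
      have h3 : Tendsto (fun n : ℕ => (2:ℝ)^(k * F.edgeSet.ncard) * ((emb (R k) (hR k) F n : ℝ) / (n : ℝ) ^ m))
          atTop (nhds ((2:ℝ)^(k * F.edgeSet.ncard) * ((hom F (V k) (R k) : ℝ) /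
            (Fintype.card (V k) : ℝ)^m))) := (emb_tendsto (R k) (hR k) F).const_mul _
      have h4 := Metric.tendsto_nhds.mp h3 (1 / ((k : ℝ) + 1)) (by positivity)
      filter_upwards [h4] with n hn
      rw [Real.dist_eq] at hn
      exact hn.le
    obtain ⟨N, hN⟩ := eventually_atTop.mp (h1.and h2)
    exact ⟨N, fun n hn => hN n hn⟩
  choose N hN using hN
  let kk : ℕ → ℕ := fun n => Nat.findGreatest (fun k => N k ≤ n) n
  have hkk : ∀ K : ℕ, ∀ᶠ n : ℕ in atTop, K ≤ kk n := by
    intro K
    filter_upwards [eventually_ge_atTop (max K (N K))] with n hn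
    exact Nat.le_findGreatest ((le_max_left _ _).trans hn) ((le_max_right _ _).trans hn)
  have hkN : ∀ᶠ n : ℕ in atTop, N (kk n) ≤ n := by
    filter_upwards [eventually_ge_atTop (N 0)] with n hn
    exact Nat.findGreatest_spec (P := fun k => N k ≤ n) (Nat.zero_le n) hn
  have hkt : Tendsto kk atTop atTop := tendsto_atTop.mpr hkk
  refine ⟨fun n => ((2 : ℝ) ^ (kk n))⁻¹, fun n => bl (R (kk n)) (hR (kk n)) n, ?_, ?_, ?_⟩
  · intro n
    refine ⟨by positivity, ?_⟩
    rw [inv_le_one₀ (by positivity)]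
    exact one_le_pow₀ (by norm_num)
  · intro ε hε
    obtain ⟨K, hK⟩ := exists_nat_gt (1 / ε)
    filter_upwards [hkk K, hkN, eventually_gt_atTop 0] with n hn1 hn2 hn3
    have h1 := (hN (kk n) n hn2).1
    have h1' : (2 : ℝ) ^ (kk n * kk n) ≤ n := by exact_mod_cast h1
    have hk1 : 1 ≤ ε * kk n := by
      have h2 : 1 / ε ≤ kk n := hK.le.trans (by exact_mod_cast hn1)
      rw [div_le_iff₀ hε] at h2
      linarith
    have hn0 : (0 : ℝ) < n := by exact_mod_cast hn3
    rw [Real.rpow_neg hn0.le]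
    apply inv_anti₀ (by positivity)
    calc (2 : ℝ) ^ (kk n) = (2 : ℝ) ^ ((kk n : ℕ) : ℝ) := (Real.rpow_natCast 2 (kk n)).symm
      _ ≤ (2 : ℝ) ^ (((kk n * kk n : ℕ) : ℝ) * ε) := by
          apply Real.rpow_le_rpow_of_exponent_le (by norm_num)
          push_cast
          nlinarith [(Nat.cast_nonneg (kk n) : (0 : ℝ) ≤ kk n)]
      _ = ((2 : ℝ) ^ (kk n * kk n)) ^ ε := by
          rw [Real.rpow_mul (by norm_num), Real.rpow_natCast]
      _ ≤ (n : ℝ) ^ ε := Real.rpow_le_rpow (by positivity) h1' hε.le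
  · intro m F _
    have he : F.edgeFinset.card = F.edgeSet.ncard := by
      rw [Set.ncard_eq_toFinset_card']
      unfold SimpleGraph.edgeFinset
      congr 1
    have h1 : Tendsto (fun n => (2:ℝ)^(kk n * F.edgeSet.ncard) * (hom F (V (kk n)) (R (kk n)) : ℝ) /
        (Fintype.card (V (kk n)) : ℝ)^m) atTop (nhds (c m F)) := (hc m F).comp hkt
    have h2 : Tendsto (fun n : ℕ => 1 / ((kk n : ℝ) + 1)) atTop (nhds 0) :=
      tendsto_one_div_add_atTop_nhds_zero_nat.comp hkt
    have h3 : Tendsto (fun n : ℕ => (Nat.card {f : F →g bl (R (kk n)) (hR (kk n)) n // Function.Injective f} : ℝ) /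
          ((((2 : ℝ) ^ (kk n))⁻¹) ^ F.edgeFinset.card * (n : ℝ) ^ m) -
        (2:ℝ)^(kk n * F.edgeSet.ncard) * (hom F (V (kk n)) (R (kk n)) : ℝ) /
        (Fintype.card (V (kk n)) : ℝ)^m) atTop (nhds 0) := by
      refine squeeze_zero_norm' ?_ h2
      filter_upwards [hkk m, hkN] with n hn1 hn2
      have h4 := (hN (kk n) n hn2).2 m (Finset.mem_range.mpr (by omega)) F
      rw [Real.norm_eq_abs]
      refine le_trans (le_of_eq ?_) h4
      congr 1
      rw [he]
      unfold emb
      rw [inv_pow, ← pow_mul]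
      congr 1
      · rw [div_mul_eq_div_div, div_inv_eq_mul]; ring
      · rw [mul_div_assoc]
    have h5 := h3.add h1
    rw [zero_add] at h5
    refine h5.congr (fun n => ?_)
    ring

end Pool.Agent.H23.Ker
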